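import Mathlib
import Pool.Agent.Lib_helper10.AndRank.Mbs

set_option autoImplicit false
set_option linter.unusedSectionVars false

/-! Functions on finite lattices given by Möbius coefficients; clean tuples. -/

namespace Pool.Agent.Lib_helper10.Meet

open Finset Pool.Agent.Lib_helper10.AndRank

open Classical

variable {L : Type*} [Lattice L] [BoundedOrder L] [Fintype L]

/-- Value at `v` of the function with coefficients `a`. -/
noncomputable def val (a : L → ℝ) (v : L) : ℝ := ∑ w ∈ univ.filter (fun w => w ≤ v), a w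

/-- Coefficients of the restriction to the filter above `U`. -/
noncomputable def res (a : L → ℝ) (U V : L) : ℝ := ∑ w ∈ univ.filter (fun w => w ⊔ U = V), a w

theorem val_res (a : L → ℝ) {U v : L} (h : U ≤ v) : val (res a U) v = val a v := by
  unfold val res
  have hm : ∀ w ∈ univ.filter (fun w : L => w ≤ v), w ⊔ U ∈ univ.filter (fun w : L => w ≤ v) := by
    intro w hw
    rw [mem_filter] at hw ⊢
    exact ⟨mem_univ _, sup_le hw.2 h⟩
  rw [← Finset.sum_fiberwise_of_maps_to hm a]
  refine Finset.sum_congr rfl fun V hV => Finset.sum_congr ?_ fun _ _ => rfl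
  ext w
  simp only [mem_filter, mem_univ, true_and] at hV ⊢
  constructor
  · intro h1
    exact ⟨le_trans (h1 ▸ le_sup_left) hV, h1⟩
  · exact fun h1 => h1.2

theorem exists_of_res_ne {a : L → ℝ} {U V : L} (h : res a U V ≠ 0) :
    ∃ w, w ⊔ U = V ∧ a w ≠ 0 := by
  obtain ⟨w, hw, hw'⟩ := Finset.exists_ne_zero_of_sum_ne_zero h
  exact ⟨w, (mem_filter.1 hw).2, hw'⟩

theorem res_base {a : L → ℝ} {U₀ : L} (hb : ∀ w, a w ≠ 0 → U₀ ≤ w) (V : L) :
    res a U₀ V = a V := by
  unfold res
  by_cases hV : a V = 0
  · rw [hV]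
    refine Finset.sum_eq_zero fun w hw => ?_
    by_contra hne
    have h1 := (mem_filter.1 hw).2
    rw [sup_eq_left.2 (hb w hne)] at h1
    rw [h1] at hne
    exact hne hV
  · refine Finset.sum_eq_single_of_mem V ?_ ?_
    · rw [mem_filter]; exact ⟨mem_univ _, sup_eq_left.2 (hb V hV)⟩
    · intro w hw hne
      by_contra hw'
      have h1 := (mem_filter.1 hw).2
      rw [sup_eq_left.2 (hb w hw')] at h1
      exact hne h1

/-- `M` is the set of monomials of `a` other than the base point, in the down-set `D`. -/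
structure IsMon (U₀ : L) (D : L → Prop) (a : L → ℝ) (M : Finset L) : Prop where
  based : ∀ w, a w ≠ 0 → U₀ ≤ w
  mem : ∀ S, S ∈ M ↔ S ≠ U₀ ∧ D S ∧ a S ≠ 0

/-- `S` is the only monomial of its class modulo `V`, the class is nontrivial and alive. -/
def Clean (D : L → Prop) (M : Finset L) (V S : L) : Prop :=
  S ⊔ V ≠ V ∧ D (S ⊔ V) ∧ ∀ S' ∈ M, S' ⊔ V = S ⊔ V → S' = S

section block

variable {κ : Type*} [Fintype κ] [DecidableEq κ]

/-- join of the base point and the other members of the tuple -/
noncomputable def others (U₀ : L) (T : κ → L) (j : κ) : L := U₀ ⊔ (univ.erase j).sup T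

theorem clean_card_le {U₀ : L} {D : L → Prop} (hdown : ∀ z z', z' ≤ z → D z → D z')
    {a : L → ℝ} (hbool : ∀ z, U₀ ≤ z → D z → val a z = 0 ∨ val a z = 1)
    {M : Finset L} (hM : IsMon U₀ D a M) {t : ℕ} (ht : M.card < 2 ^ t)
    (T : κ → L) (hT : ∀ j, T j ∈ M) (hU : D (U₀ ⊔ univ.sup T))
    (J₀ : Finset κ) (hJ : ∀ j ∈ J₀, Clean D M (others U₀ T j) (T j)) : J₀.card ≤ 2 * t ^ 2 := by
  set U := U₀ ⊔ univ.sup T with hUdef
  set O : κ → L := fun j => others U₀ T j with hO
  have hU₀O : ∀ j, U₀ ≤ O j := fun j => le_sup_left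
  have hTU : ∀ j, T j ≤ U := fun j => le_trans (Finset.le_sup (f := T) (mem_univ j)) le_sup_right
  have hTo : ∀ j l, l ≠ j → T l ≤ O j := fun j l h =>
    le_trans (Finset.le_sup (f := T) (mem_erase.2 ⟨h, mem_univ l⟩)) le_sup_right
  have hOU : ∀ j, O j ≤ U := fun j =>
    sup_le_sup le_rfl (Finset.sup_mono (erase_subset _ _))
  have hTOU : ∀ j, T j ⊔ O j = U := by
    intro j
    refine le_antisymm (sup_le (hTU j) (hOU j)) ?_
    refine sup_le (le_trans (hU₀O j) le_sup_right) (Finset.sup_le fun l _ => ?_)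
    by_cases h : l = j
    · rw [h]; exact le_sup_left
    · exact le_trans (hTo j l h) le_sup_right
  set C := U ⊓ J₀.inf O with hC
  set Cj : κ → L := fun j => U ⊓ (J₀.erase j).inf O with hCj
  have hCle : ∀ j ∈ J₀, C ≤ O j := fun j hj => le_trans inf_le_right (Finset.inf_le hj)
  have hCCj : ∀ j, C ≤ Cj j := fun j =>
    inf_le_inf le_rfl (Finset.inf_mono (erase_subset _ _))
  have hCjO : ∀ j ∈ J₀, ∀ l ∈ J₀, l ≠ j → Cj l ≤ O j := fun j hj l _ hl =>
    le_trans inf_le_right (Finset.inf_le (mem_erase.2 ⟨Ne.symm hl, hj⟩))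
  have hTCj : ∀ j, T j ≤ Cj j := by
    intro j
    refine le_inf (hTU j) (Finset.le_inf fun l hl => ?_)
    exact hTo l j (Ne.symm (mem_erase.1 hl).1)
  have hCjU : ∀ j, Cj j ≤ U := fun j => inf_le_left
  have hCU : C ≤ U := inf_le_left
  have hU₀C : U₀ ≤ C := le_inf le_sup_left (Finset.le_inf fun j _ => hU₀O j)
  have hCmeet : ∀ j ∈ J₀, O j ⊓ Cj j ≤ C := by
    intro j hj
    refine le_inf (inf_le_right.trans (hCjU j)) (Finset.le_inf fun l hl => ?_)
    by_cases h : l = j
    · rw [h]; exact inf_le_left
    · exact inf_le_right.trans (inf_le_right.trans (Finset.inf_le (mem_erase.2 ⟨h, hl⟩)))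
  -- points where the value changes
  have hx : ∀ j ∈ J₀, ∃ x, C ≤ x ∧ x ≤ Cj j ∧ (x ⊔ O j) ⊓ Cj j = x ∧ val a x ≠ val a C := by
    intro j hj
    by_contra hcon
    push Not at hcon
    set cl : L → L := fun x => (x ⊔ O j) ⊓ Cj j with hcl
    set g : L → ℝ := fun k => ∑ w ∈ univ.filter (fun w => w ≤ Cj j ∧ cl w = k), a w with hg
    -- value at closed points
    have hvalg : ∀ x, C ≤ x → x ≤ Cj j → cl x = x →
        val a x = ∑ k ∈ univ.filter (fun k => k ≤ x), g k := by
      intro x _ hx2 hx3
      unfold val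
      have hm : ∀ w ∈ univ.filter (fun w : L => w ≤ x), cl w ∈ univ.filter (fun w : L => w ≤ x) := by
        intro w hw
        rw [mem_filter] at hw ⊢
        refine ⟨mem_univ _, ?_⟩
        calc cl w ≤ cl x := inf_le_inf (sup_le_sup hw.2 le_rfl) le_rfl
          _ = x := hx3
      rw [← Finset.sum_fiberwise_of_maps_to hm]
      refine Finset.sum_congr rfl fun k hk => ?_
      rw [hg]
      refine Finset.sum_congr ?_ fun _ _ => rfl
      ext w
      simp only [mem_filter, mem_univ, true_and] at hk ⊢
      constructor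
      · rintro ⟨h1, h2⟩
        exact ⟨h1.trans hx2, h2⟩
      · rintro ⟨h1, h2⟩
        refine ⟨?_, h2⟩
        refine le_trans ?_ hk
        rw [← h2]
        exact le_inf le_sup_left h1
    -- support of g
    have hgsupp : ∀ k, g k ≠ 0 → C ≤ k ∧ k ≤ Cj j ∧ cl k = k := by
      intro k hk
      obtain ⟨w, hw, _⟩ := Finset.exists_ne_zero_of_sum_ne_zero hk
      obtain ⟨h1, h2⟩ := (mem_filter.1 hw).2
      rw [← h2]
      refine ⟨le_inf (le_trans (hCle j hj) le_sup_right) (hCCj j), inf_le_right, ?_⟩
      refine le_antisymm ?_ ?_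
      · refine le_inf ?_ inf_le_right
        exact le_trans inf_le_left (sup_le inf_le_left le_sup_right)
      · exact le_inf le_sup_left inf_le_right
    have hclC : cl C = C := by
      refine le_antisymm ?_ (le_inf le_sup_left (hCCj j))
      have : cl C = O j ⊓ Cj j := by
        rw [hcl]; simp only; rw [sup_eq_right.2 (hCle j hj)]
      rw [this]
      exact hCmeet j hj
    have hg0 : ∀ n, ∀ k, (univ.filter (fun u : L => u ≤ k)).card = n → k ≠ C → g k = 0 := by
      intro n
      induction n using Nat.strong_induction_on with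
      | _ n ih =>
        intro k hkn hkC
        by_contra hk
        obtain ⟨h1, h2, h3⟩ := hgsupp k hk
        have h4 := hcon k h1 h2 h3
        rw [hvalg k h1 h2 h3, hvalg C le_rfl (hCCj j) hclC] at h4
        have h5 : ∑ u ∈ univ.filter (fun u => u ≤ k), g u = g C + g k := by
          rw [← Finset.sum_pair (f := g) (Ne.symm hkC)]
          symm
          refine Finset.sum_subset ?_ ?_
          · intro u hu
            rw [mem_insert, mem_singleton] at hu
            rw [mem_filter]
            rcases hu with rfl | rfl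
            · exact ⟨mem_univ _, h1⟩
            · exact ⟨mem_univ _, le_rfl⟩
          · intro u hu hu'
            rw [mem_insert, mem_singleton] at hu'
            push Not at hu'
            refine ih _ ?_ u rfl hu'.1
            rw [← hkn]
            refine card_lt_card ?_
            rw [Finset.ssubset_iff_subset_ne]
            have huk := (mem_filter.1 hu).2
            refine ⟨fun w hw => ?_, fun heq => ?_⟩
            · rw [mem_filter] at hw ⊢
              exact ⟨mem_univ _, hw.2.trans huk⟩
            · have : k ∈ univ.filter (fun w : L => w ≤ u) := by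
                rw [heq]; simp
              exact hu'.2 (le_antisymm huk (mem_filter.1 this).2)
        have h6 : ∑ u ∈ univ.filter (fun u => u ≤ C), g u = g C := by
          refine Finset.sum_eq_single_of_mem C (by simp) ?_
          intro u hu hne
          by_contra hu'
          exact hne (le_antisymm (mem_filter.1 hu).2 (hgsupp u hu').1)
        rw [h5, h6] at h4
        exact hk (by linarith)
    have hclean := hJ j hj
    have hCjne : Cj j ≠ C := by
      intro h
      apply hclean.1
      rw [sup_eq_right]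
      exact (hTCj j).trans (h ▸ hCle j hj)
    have hgtop : g (Cj j) = a (T j) := by
      rw [hg]
      refine Finset.sum_eq_single_of_mem (T j) ?_ ?_
      · rw [mem_filter]
        refine ⟨mem_univ _, hTCj j, ?_⟩
        rw [hcl]
        simp only
        rw [hTOU j]
        exact inf_eq_right.2 (hCjU j)
      · intro w hw hne
        by_contra ha
        obtain ⟨h1, h2⟩ := (mem_filter.1 hw).2
        have h3 : w ⊔ O j = U := by
          refine le_antisymm (sup_le (h1.trans (hCjU j)) (hOU j)) ?_
          rw [← hTOU j]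
          refine sup_le ?_ le_sup_right
          refine (hTCj j).trans ?_
          rw [← h2]
          exact inf_le_left
        have h4 : w ⊔ O j = T j ⊔ O j := by rw [h3, hTOU j]
        have hwne : w ≠ U₀ := by
          intro h
          apply hclean.1
          show T j ⊔ O j = O j
          rw [← h4, h]
          exact sup_eq_right.2 (hU₀O j)
        have hwM : w ∈ M := (hM.mem w).2 ⟨hwne, hdown _ _ (h1.trans (hCjU j)) hU, ha⟩
        exact hne (hclean.2.2 w hwM h4)
    have h7 := hg0 _ (Cj j) rfl hCjne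
    rw [hgtop] at h7
    exact ((hM.mem _).1 (hT j)).2.2 h7
  choose! x hx1 hx2 hx3 hx4 using hx
  set Y := C ⊔ J₀.sup x with hY
  have hYU : Y ≤ U := sup_le hCU (Finset.sup_le fun j hj => (hx2 j hj).trans (hCjU j))
  have hCY : C ≤ Y := le_sup_left
  -- the function on the cube
  set u : Finset {j // j ∈ J₀} → L := fun c =>
    Y ⊓ ((univ : Finset {j // j ∈ J₀}) \ c).inf (fun j => O j) with hu
  set F : Finset {j // j ∈ J₀} → ℝ := fun c => val a (u c) with hF
  set s := univ.filter (fun w : L => w ≤ Y ∧ a w ≠ 0) with hs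
  set J : L → Finset {j // j ∈ J₀} := fun w => univ.filter (fun j => ¬ w ≤ O j) with hJdef
  have huY : ∀ c, u c ≤ Y := fun c => inf_le_left
  have hU₀u : ∀ c, U₀ ≤ u c := fun c =>
    le_inf (hU₀C.trans hCY) (Finset.le_inf fun j _ => hU₀O j)
  have hcard : (s.filter fun w => t < (J w).card).card < 2 ^ t := by
    refine lt_of_le_of_lt (card_le_card fun w hw => ?_) ht
    obtain ⟨hw1, hw2⟩ := mem_filter.1 hw
    obtain ⟨_, hw3, hw4⟩ := mem_filter.1 hw1
    refine (hM.mem w).2 ⟨?_, hdown _ _ (hw3.trans hYU) hU, hw4⟩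
    rintro rfl
    have : J w = ∅ := by
      rw [hJdef]
      simp only
      rw [Finset.filter_eq_empty_iff]
      intro j _
      rw [not_not]
      exact hU₀O j
    rw [this] at hw2
    simp at hw2
  have hFsum : ∀ c, F c = ∑ w ∈ s.filter (fun w => J w ⊆ c), a w := by
    intro c
    rw [hF]
    simp only [val]
    rw [hs, Finset.filter_filter, ← Finset.sum_filter_ne_zero]
    refine Finset.sum_congr ?_ fun _ _ => rfl
    ext w
    simp only [mem_filter, mem_univ, true_and, hu]
    constructor
    · rintro ⟨h1, h2⟩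
      refine ⟨⟨h1.trans inf_le_left, h2⟩, fun j hj => ?_⟩
      by_contra hjc
      have h3 : w ≤ O j := h1.trans (inf_le_right.trans
        (Finset.inf_le (f := fun j : {j // j ∈ J₀} => O j) (mem_sdiff.2 ⟨mem_univ j, hjc⟩)))
      exact (mem_filter.1 hj).2 h3
    · rintro ⟨⟨h1, h2⟩, h3⟩
      refine ⟨le_inf h1 (Finset.le_inf fun j hj => ?_), h2⟩
      by_contra hjw
      exact (mem_sdiff.1 hj).2 (h3 (mem_filter.2 ⟨mem_univ j, hjw⟩))
  have hFb : ∀ c, F c = 0 ∨ F c = 1 := fun c =>
    hbool _ (hU₀u c) (hdown _ _ ((huY c).trans hYU) hU)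
  have hu0 : u ∅ = C := by
    refine le_antisymm ?_ ?_
    · refine le_inf ((huY _).trans hYU) (Finset.le_inf fun j hj => ?_)
      exact inf_le_right.trans
        (Finset.inf_le (f := fun j : {j // j ∈ J₀} => O j) (b := ⟨j, hj⟩) (by simp))
    · exact le_inf hCY (Finset.le_inf fun j _ => hCle j j.2)
  have hu1 : ∀ j : {j // j ∈ J₀}, u {j} = x j := by
    intro j
    refine le_antisymm ?_ ?_
    · have h1 : u {j} ≤ Cj j := by
        refine le_inf ((huY _).trans hYU) (Finset.le_inf fun l hl => ?_)
        obtain ⟨hl1, hl2⟩ := mem_erase.1 hl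
        refine inf_le_right.trans
          (Finset.inf_le (f := fun j : {j // j ∈ J₀} => O j) (b := ⟨l, hl2⟩) ?_)
        rw [mem_sdiff, mem_singleton]
        exact ⟨mem_univ _, fun h => hl1 (congrArg Subtype.val h)⟩
      have h2 : Y ≤ x j ⊔ O j := by
        refine sup_le ((hx1 j j.2).trans le_sup_left) (Finset.sup_le fun l hl => ?_)
        by_cases h : l = j
        · rw [h]; exact le_sup_left
        · exact ((hx2 l hl).trans (hCjO j j.2 l hl h)).trans le_sup_right
      calc u {j} ≤ (x j ⊔ O j) ⊓ Cj j := le_inf ((huY _).trans h2) h1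
        _ = x j := hx3 j j.2
    · refine le_inf ((Finset.le_sup (f := x) j.2).trans le_sup_right) (Finset.le_inf fun l hl => ?_)
      rw [mem_sdiff, mem_singleton] at hl
      exact (hx2 j j.2).trans (hCjO l l.2 j j.2 (fun h => hl.2 (Subtype.ext h).symm))
  have hFs : ∀ j, F {j} ≠ F ∅ := by
    intro j
    rw [hF]
    simp only
    rw [hu0, hu1]
    exact hx4 j j.2
  have := mbs s a J hcard F hFsum hFb hFs
  simpa using this

end block

end Pool.Agent.Lib_helper10.Meet
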