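import Mathlib
import Pool.Agent.Lib_helper10.Meet.Block

set_option autoImplicit false
set_option linter.unusedSectionVars false

/-! Key lemma: some join of few monomials kills a quarter of all monomials. -/

namespace Pool.Agent.Lib_helper10.Meet

open Finset

open Classical

variable {L : Type*} [Lattice L] [BoundedOrder L] [Fintype L]

/-- the alive classes above `U` -/
noncomputable def alive (D : L → Prop) (a : L → ℝ) (U : L) : Finset L :=
  univ.filter fun V => V ≠ U ∧ D V ∧ res a U V ≠ 0

theorem mem_alive {D : L → Prop} {a : L → ℝ} {U V : L} :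
    V ∈ alive D a U ↔ V ≠ U ∧ D V ∧ res a U V ≠ 0 := by
  simp [alive]

/-- many classes ⇒ many clean monomials -/
theorem clean_many {U₀ : L} {D : L → Prop} (hdown : ∀ z z', z' ≤ z → D z → D z')
    {a : L → ℝ} {M : Finset L} (hM : IsMon U₀ D a M) (U : L) (hU : U₀ ≤ U)
    (C : Finset L) (hC : ∀ S ∈ M, Clean D M U S → S ∈ C) :
    2 * (alive D a U).card ≤ M.card + C.card := by
  set A := alive D a U with hA
  -- every class has a representative in `M`
  have hrep : ∀ W ∈ A, ∃ S ∈ M, S ⊔ U = W := by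
    intro W hW
    obtain ⟨h1, h2, h3⟩ := mem_alive.1 hW
    obtain ⟨S, hS1, hS2⟩ := exists_of_res_ne h3
    refine ⟨S, (hM.mem S).2 ⟨?_, hdown _ _ (hS1 ▸ le_sup_left) h2, hS2⟩, hS1⟩
    rintro rfl
    rw [sup_eq_right.2 hU] at hS1
    exact h1 hS1.symm
  set M' := M.filter (fun S => S ⊔ U ∈ A) with hM'
  have hmaps : ∀ S ∈ M', S ⊔ U ∈ A := fun S hS => (mem_filter.1 hS).2
  have hsum := Finset.card_eq_sum_card_fiberwise hmaps
  -- every fibre has one element or at least two
  have hfib : ∀ W ∈ A, 2 ≤ (M'.filter fun S => S ⊔ U = W).card +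
      (C.filter fun S => S ⊔ U = W).card := by
    intro W hW
    obtain ⟨S, hS, hSW⟩ := hrep W hW
    have hSM' : S ∈ M' := mem_filter.2 ⟨hS, hSW ▸ hW⟩
    by_cases huniq : ∀ S' ∈ M, S' ⊔ U = W → S' = S
    · have hcl : Clean D M U S := by
        refine ⟨?_, ?_, fun S' hS' h => huniq S' hS' (h.trans hSW)⟩
        · rw [hSW]; exact (mem_alive.1 hW).1
        · rw [hSW]; exact (mem_alive.1 hW).2.1
      have hSC := hC S hS hcl
      have h1 : 1 ≤ (M'.filter fun S => S ⊔ U = W).card :=
        card_pos.2 ⟨S, mem_filter.2 ⟨hSM', hSW⟩⟩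
      have h2 : 1 ≤ (C.filter fun S => S ⊔ U = W).card :=
        card_pos.2 ⟨S, mem_filter.2 ⟨hSC, hSW⟩⟩
      omega
    · push Not at huniq
      obtain ⟨S', hS', hSW', hne⟩ := huniq
      have : ({S', S} : Finset L) ⊆ M'.filter fun S => S ⊔ U = W := by
        intro T hT
        rw [mem_insert, mem_singleton] at hT
        rcases hT with rfl | rfl
        · exact mem_filter.2 ⟨mem_filter.2 ⟨hS', hSW' ▸ hW⟩, hSW'⟩
        · exact mem_filter.2 ⟨hSM', hSW⟩
      have h2 := card_le_card this
      rw [card_pair hne] at h2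
      omega
  have h1 : ∑ W ∈ A, (C.filter fun S => S ⊔ U = W).card ≤ C.card := by
    have hmaps' : ∀ S ∈ C.filter (fun S => S ⊔ U ∈ A), S ⊔ U ∈ A :=
      fun S hS => (mem_filter.1 hS).2
    have := Finset.card_eq_sum_card_fiberwise hmaps'
    calc ∑ W ∈ A, (C.filter fun S => S ⊔ U = W).card
        = ∑ W ∈ A, ((C.filter (fun S => S ⊔ U ∈ A)).filter fun S => S ⊔ U = W).card := by
          refine Finset.sum_congr rfl fun W hW => ?_
          congr 1
          ext S
          simp only [mem_filter]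
          constructor
          · rintro ⟨h1, h2⟩; exact ⟨⟨h1, h2 ▸ hW⟩, h2⟩
          · rintro ⟨⟨h1, _⟩, h2⟩; exact ⟨h1, h2⟩
      _ = (C.filter (fun S => S ⊔ U ∈ A)).card := this.symm
      _ ≤ C.card := card_le_card (filter_subset _ _)
  calc 2 * A.card = ∑ W ∈ A, 2 := by rw [Finset.sum_const, smul_eq_mul]; ring
    _ ≤ ∑ W ∈ A, ((M'.filter fun S => S ⊔ U = W).card + (C.filter fun S => S ⊔ U = W).card) :=
        Finset.sum_le_sum hfib
    _ = M'.card + ∑ W ∈ A, (C.filter fun S => S ⊔ U = W).card := by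
        rw [Finset.sum_add_distrib, ← hsum]
    _ ≤ M.card + C.card := add_le_add (card_le_card (filter_subset _ _)) h1

theorem others_insertNth {n : ℕ} {M : Finset L} (U₀ : L) (j : Fin (n + 1)) (S : M)
    (R : Fin n → M) :
    others U₀ (fun i => ((j.insertNth S R : Fin (n + 1) → M) i : L)) j =
      U₀ ⊔ (univ : Finset (Fin n)).sup fun i => (R i : L) := by
  unfold others
  refine le_antisymm (sup_le_sup le_rfl (Finset.sup_le fun i hi => ?_))
    (sup_le_sup le_rfl (Finset.sup_le fun k _ => ?_))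
  · obtain ⟨k, rfl⟩ := Fin.exists_succAbove_eq (mem_erase.1 hi).1
    rw [Fin.insertNth_apply_succAbove]
    exact Finset.le_sup (f := fun i => (R i : L)) (mem_univ k)
  · have := Finset.le_sup (f := fun i => ((j.insertNth S R : Fin (n + 1) → M) i : L))
      (mem_erase.2 ⟨Fin.succAbove_ne j k, mem_univ _⟩ : j.succAbove k ∈ univ.erase j)
    simp only [Fin.insertNth_apply_succAbove] at this
    exact this

theorem union_insertNth {n : ℕ} {M : Finset L} (U₀ : L) (j : Fin (n + 1)) (S : M)
    (R : Fin n → M) :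
    (U₀ ⊔ (univ : Finset (Fin (n+1))).sup
      fun i => ((j.insertNth S R : Fin (n + 1) → M) i : L)) =
      (S : L) ⊔ (U₀ ⊔ (univ : Finset (Fin n)).sup fun i => (R i : L)) := by
  refine le_antisymm (sup_le (le_sup_left.trans le_sup_right) (Finset.sup_le fun i _ => ?_))
    (sup_le ?_ (sup_le_sup le_rfl (Finset.sup_le fun k _ => ?_)))
  · by_cases hi : i = j
    · subst hi
      rw [Fin.insertNth_apply_same]
      exact le_sup_left
    · obtain ⟨k, rfl⟩ := Fin.exists_succAbove_eq hi
      rw [Fin.insertNth_apply_succAbove]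
      exact ((Finset.le_sup (f := fun i => (R i : L)) (mem_univ k)).trans le_sup_right).trans
        le_sup_right
  · have := Finset.le_sup (f := fun i => ((j.insertNth S R : Fin (n + 1) → M) i : L)) (mem_univ j)
    simp only [Fin.insertNth_apply_same] at this
    exact this.trans le_sup_right
  · have := Finset.le_sup (f := fun i => ((j.insertNth S R : Fin (n + 1) → M) i : L))
      (mem_univ (j.succAbove k))
    simp only [Fin.insertNth_apply_succAbove] at this
    exact this

/-- Key lemma. -/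
theorem key {U₀ : L} {D : L → Prop} (hdown : ∀ z z', z' ≤ z → D z → D z')
    {a : L → ℝ} (hbool : ∀ z, U₀ ≤ z → D z → val a z = 0 ∨ val a z = 1)
    {M : Finset L} (hM : IsMon U₀ D a M) {t : ℕ} (ht : M.card < 2 ^ t)
    (hne : M.Nonempty) :
    ∃ R : Fin (4 * t ^ 2) → M, D (U₀ ⊔ univ.sup fun i => (R i : L)) ∧
      4 * (alive D a (U₀ ⊔ univ.sup fun i => (R i : L))).card ≤ 3 * M.card := by
  by_contra hcon
  push Not at hcon
  set n := 4 * t ^ 2 with hn
  let U : (Fin n → M) → L := fun R => U₀ ⊔ univ.sup fun i => (R i : L)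
  let U' : (Fin (n + 1) → M) → L := fun T => U₀ ⊔ univ.sup fun i => (T i : L)
  let cl : L → M → ℕ := fun V S => if Clean D M V S then 1 else 0
  -- total number of clean pairs
  have hcount : ∑ T : Fin (n + 1) → M, ∑ j, cl (others U₀ (fun i => (T i : L)) j) (T j)
      = (n + 1) * ∑ R : Fin n → M, ∑ S : M, cl (U R) S := by
    have hj : ∀ j : Fin (n + 1), ∑ T : Fin (n + 1) → M,
        cl (others U₀ (fun i => (T i : L)) j) (T j) = ∑ R : Fin n → M, ∑ S : M, cl (U R) S := by
      intro j
      rw [← (Fin.insertNthEquiv (fun _ => (M : Type _)) j).sum_comp, Fintype.sum_prod_type_right]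
      refine Finset.sum_congr rfl fun R _ => Finset.sum_congr rfl fun S _ => ?_
      have e1 : (Fin.insertNthEquiv (fun _ => (M : Type _)) j) (S, R) =
          (j.insertNth S R : Fin (n + 1) → M) := rfl
      rw [e1, others_insertNth, Fin.insertNth_apply_same]
    rw [Finset.sum_comm, Finset.sum_congr rfl (fun j _ => hj j), Finset.sum_const,
      Finset.card_univ, Fintype.card_fin, smul_eq_mul]
  -- lower bound
  have hlow : ∀ R : Fin n → M, D (U R) → M.card + 1 ≤ 2 * ∑ S : M, cl (U R) S := by
    intro R hR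
    have h1 := hcon R hR
    set C := (M.filter fun S => Clean D M (U R) S) with hC
    have h2 := clean_many hdown hM (U R) le_sup_left C (fun S hS h => mem_filter.2 ⟨hS, h⟩)
    have h3 : ∑ S : M, cl (U R) S = C.card := by
      rw [hC, Finset.card_filter, ← Finset.sum_coe_sort M]
    rw [h3]
    have h1' : 3 * M.card < 4 * (alive D a (U R)).card := h1
    omega
  -- upper bound
  have hup : ∀ T : Fin (n + 1) → M, ∑ j, cl (others U₀ (fun i => (T i : L)) j) (T j) ≤
      if D (U' T) then 2 * t ^ 2 else 0 := by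
    intro T
    split_ifs with hD
    · have : ∑ j, cl (others U₀ (fun i => (T i : L)) j) (T j) =
          (univ.filter fun j => Clean D M (others U₀ (fun i => (T i : L)) j) (T j)).card := by
        rw [Finset.card_filter]
      rw [this]
      refine clean_card_le hdown hbool hM ht (fun i => (T i : L)) (fun j => (T j).2) hD _ ?_
      intro j hj
      exact (mem_filter.1 hj).2
    · refine le_of_eq (Finset.sum_eq_zero fun j _ => ?_)
      simp only [cl]
      rw [if_neg]
      intro hc
      refine hD (hdown _ _ ?_ hc.2.1)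
      refine sup_le ?_ (Finset.sup_le fun i _ => ?_)
      · exact le_trans (le_sup_left : U₀ ≤ others U₀ (fun i => (T i : L)) j) le_sup_right
      · by_cases hij : i = j
        · subst hij; exact le_sup_left
        · refine le_trans ?_ le_sup_right
          exact le_trans (Finset.le_sup (f := fun i => (T i : L))
            (mem_erase.2 ⟨hij, mem_univ i⟩)) le_sup_right
  set 𝒟 := (univ : Finset (Fin n → M)).filter fun R => D (U R) with h𝒟
  have hup2 : ∑ T : Fin (n + 1) → M, (if D (U' T) then 2 * t ^ 2 else 0) ≤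
      2 * t ^ 2 * (M.card * 𝒟.card) := by
    rw [← (Fin.insertNthEquiv (fun _ => (M : Type _)) 0).sum_comp, Fintype.sum_prod_type_right]
    calc _ ≤ ∑ R : Fin n → M, ∑ S : M, (if D (U R) then 2 * t ^ 2 else 0) := by
          refine Finset.sum_le_sum fun R _ => Finset.sum_le_sum fun S _ => ?_
          have e1 : (Fin.insertNthEquiv (fun _ => (M : Type _)) 0) (S, R) =
            ((0 : Fin (n+1)).insertNth S R : Fin (n + 1) → M) := rfl
          rw [e1]
          by_cases h : D (U R)
          · rw [if_pos h]; split_ifs <;> simp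
          · rw [if_neg h, if_neg]
            intro h'
            refine h (hdown _ _ ?_ h')
            simp only [U', union_insertNth]
            exact le_sup_right
      _ = 2 * t ^ 2 * (M.card * 𝒟.card) := by
          simp only [Finset.sum_const, Finset.card_univ, Fintype.card_coe, smul_eq_mul]
          rw [← Finset.mul_sum, ← Finset.sum_filter, Finset.sum_const, smul_eq_mul]
          ring
  have h𝒟ne : 0 < 𝒟.card := by
    obtain ⟨S, hS⟩ := hne
    refine card_pos.2 ⟨fun _ => ⟨S, hS⟩, mem_filter.2 ⟨mem_univ _, ?_⟩⟩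
    obtain ⟨_, hDS, haS⟩ := (hM.mem S).1 hS
    refine hdown S _ ?_ hDS
    exact sup_le (hM.based S haS) (Finset.sup_le fun _ _ => le_rfl)
  have hlow2 : 𝒟.card * (M.card + 1) ≤ 2 * ∑ R : Fin n → M, ∑ S : M, cl (U R) S := by
    rw [Finset.mul_sum, ← smul_eq_mul, ← Finset.sum_const]
    calc ∑ _R ∈ 𝒟, (M.card + 1) ≤ ∑ R ∈ 𝒟, 2 * ∑ S : M, cl (U R) S :=
          Finset.sum_le_sum fun R hR => hlow R (mem_filter.1 hR).2
      _ ≤ _ := Finset.sum_le_sum_of_subset (subset_univ _)
  have hfin := (Finset.sum_le_sum fun T (_ : T ∈ (univ : Finset (Fin (n + 1) → M))) =>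
    hup T).trans hup2
  rw [hcount] at hfin
  have h4 : (n + 1) * (𝒟.card * (M.card + 1)) ≤ 2 * (2 * t ^ 2 * (M.card * 𝒟.card)) :=
    calc (n + 1) * (𝒟.card * (M.card + 1)) ≤
          (n + 1) * (2 * ∑ R : Fin n → M, ∑ S : M, cl (U R) S) := Nat.mul_le_mul le_rfl hlow2
      _ = 2 * ((n + 1) * ∑ R : Fin n → M, ∑ S : M, cl (U R) S) := by ring
      _ ≤ _ := Nat.mul_le_mul le_rfl hfin
  have h5' : ∀ d, 2 * (2 * t ^ 2 * (M.card * d)) = n * (d * M.card) := by
    intro d; rw [hn]; ring
  have h5 := h5' 𝒟.card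
  rw [h5] at h4
  have h6 : n * (𝒟.card * M.card) ≤ n * (𝒟.card * (M.card + 1)) :=
    Nat.mul_le_mul le_rfl (Nat.mul_le_mul le_rfl (Nat.le_succ _))
  have h7 : 0 < 𝒟.card * (M.card + 1) := Nat.mul_pos h𝒟ne (Nat.succ_pos _)
  nlinarith

end Pool.Agent.Lib_helper10.Meet
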