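import Mathlib
import Pool.Agent.Lib_helper10.Meet.Key
import Pool.Agent.Lib_helper10.AndRank.Core

set_option autoImplicit false
set_option linter.unusedSectionVars false

/-! Large rectangles on which the value depends only on the column, and the protocol. -/

namespace Pool.Agent.Lib_helper10.Meet

open Finset Pool.Agent.Lib_helper10.LogRank
open Pool.Agent.Lib_helper10.AndRank (cleaning rk vec rk_le_one rk_mono_left rk_mono_right reps
  Good phases size_bound rk_le_of_sum)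

open Classical

section rect

variable {L : Type*} [Lattice L] [BoundedOrder L] [Fintype L]

/-- down-closure of a set of points -/
def DX (X : Finset L) (z : L) : Prop := ∃ x ∈ X, z ≤ x

theorem DX_down (X : Finset L) : ∀ z z', z' ≤ z → DX X z → DX X z' := by
  rintro z z' h ⟨x, hx, hz⟩
  exact ⟨x, hx, h.trans hz⟩

/-- monomials other than the base point in the down closure of `X` -/
noncomputable def monX (U₀ : L) (X : Finset L) (a : L → ℝ) : Finset L :=
  univ.filter fun S => S ≠ U₀ ∧ DX X S ∧ a S ≠ 0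

theorem isMon_monX (U₀ : L) (X : Finset L) (a : L → ℝ) (hb : ∀ w, a w ≠ 0 → U₀ ≤ w) :
    IsMon U₀ (DX X) a (monX U₀ X a) :=
  ⟨hb, fun S => by simp [monX]⟩

theorem rect {Yt : Type*} {t : ℕ} : ∀ (j : ℕ) (U₀ : L) (X : Finset L) (Y : Finset Yt)
    (a : Yt → L → ℝ) (𝓜 : Finset L), (∀ x ∈ X, U₀ ≤ x) →
    𝓜.card < 2 ^ t → (∀ y ∈ Y, ∀ S, S ≠ U₀ → a y S ≠ 0 → S ∈ 𝓜) →
    (∀ y ∈ Y, ∀ S, a y S ≠ 0 → U₀ ≤ S) →
    (∀ y ∈ Y, ∀ z, U₀ ≤ z → DX X z → val (a y) z = 0 ∨ val (a y) z = 1) →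
    (∀ y ∈ Y, (monX U₀ X (a y)).card * 3 ^ j < 4 ^ j) →
    ∃ X' ⊆ X, ∃ Y' ⊆ Y, X.card ≤ 2 ^ ((4 * t ^ 3 + 1) * j) * X'.card ∧
      Y.card ≤ 2 ^ ((4 * t ^ 3 + 1) * j) * Y'.card ∧
      ∀ y ∈ Y', ∃ b, ∀ x ∈ X', val (a y) x = b := by
  intro j
  induction j with
  | zero =>
    intro U₀ X Y a 𝓜 hX₀ h𝓜 hsup hbase hbool hm
    refine ⟨X, Subset.rfl, Y, Subset.rfl, by simp, by simp, fun y hy => ⟨a y U₀, fun x hx => ?_⟩⟩
    have h0 : monX U₀ X (a y) = ∅ := by
      have := hm y hy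
      simp at this
      exact this
    unfold val
    refine Finset.sum_eq_single_of_mem U₀ ?_ fun S hS hne => ?_
    · rw [mem_filter]; exact ⟨mem_univ _, hX₀ x hx⟩
    · by_contra hS'
      have : S ∈ monX U₀ X (a y) :=
        ((isMon_monX U₀ X (a y) (hbase y hy)).mem S).2 ⟨hne, ⟨x, hx, (mem_filter.1 hS).2⟩, hS'⟩
      rw [h0] at this
      simp at this
  | succ j ih =>
    intro U₀ X Y a 𝓜 hXU₀ h𝓜 hsup hbase hbool hm
    rcases Y.eq_empty_or_nonempty with rfl | hYne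
    · exact ⟨X, Subset.rfl, ∅, Subset.rfl, Nat.le_mul_of_pos_left _ (by positivity), by simp,
        by simp⟩
    set n := 4 * t ^ 2 with hn
    set N := 2 ^ (t * n) with hN
    set 𝒰 := (univ : Finset (Fin n → 𝓜)).image
      (fun R => U₀ ⊔ (univ : Finset (Fin n)).sup fun i => (R i : L)) with h𝒰
    have h𝒰card : 𝒰.card ≤ N := by
      calc 𝒰.card ≤ (univ : Finset (Fin n → 𝓜)).card := card_image_le
        _ = 𝓜.card ^ n := by simp
        _ ≤ (2 ^ t) ^ n := Nat.pow_le_pow_left h𝓜.le n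
        _ = N := (pow_mul 2 t n).symm
    have hNpos : 0 < N := by rw [hN]; positivity
    obtain ⟨X₀, hX₀X, hX₀card, hX₀⟩ := cleaning X 𝒰 (fun u x => u ≤ x) N h𝒰card hNpos
    -- choice of `U y`
    have hchoice : ∀ y ∈ Y, ∃ U ∈ insert U₀ 𝒰, (U = U₀ ∨ DX X₀ U) ∧ U₀ ≤ U ∧
        4 * (alive (DX X₀) (a y) U).card ≤ 3 * (monX U₀ X (a y)).card := by
      intro y hy
      have hmon : monX U₀ X₀ (a y) ⊆ monX U₀ X (a y) := by
        intro S hS
        obtain ⟨h1, ⟨x, hx, h2⟩, h3⟩ := ((isMon_monX U₀ X₀ (a y) (hbase y hy)).mem S).1 hS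
        exact ((isMon_monX U₀ X (a y) (hbase y hy)).mem S).2 ⟨h1, ⟨x, hX₀X hx, h2⟩, h3⟩
      have hbool₀ : ∀ z, U₀ ≤ z → DX X₀ z → val (a y) z = 0 ∨ val (a y) z = 1 := by
        rintro z hz0 ⟨x, hx, hz⟩
        exact hbool y hy z hz0 ⟨x, hX₀X hx, hz⟩
      have hmon𝓜 : monX U₀ X₀ (a y) ⊆ 𝓜 := by
        intro S hS
        obtain ⟨h1, _, h3⟩ := ((isMon_monX U₀ X₀ (a y) (hbase y hy)).mem S).1 hS
        exact hsup y hy S h1 h3
      rcases (monX U₀ X₀ (a y)).eq_empty_or_nonempty with he | hne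
      · refine ⟨U₀, mem_insert_self _ _, Or.inl rfl, le_rfl, ?_⟩
        have : alive (DX X₀) (a y) U₀ = ∅ := by
          rw [eq_empty_iff_forall_notMem]
          intro W hW
          obtain ⟨h1, h2, h3⟩ := mem_alive.1 hW
          rw [res_base (hbase y hy)] at h3
          have : W ∈ monX U₀ X₀ (a y) :=
            ((isMon_monX U₀ X₀ (a y) (hbase y hy)).mem W).2 ⟨h1, h2, h3⟩
          rw [he] at this
          simp at this
        rw [this]
        simp
      · obtain ⟨R, hR1, hR2⟩ := key (DX_down X₀) hbool₀ (isMon_monX U₀ X₀ (a y) (hbase y hy))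
          (lt_of_le_of_lt (card_le_card hmon𝓜) h𝓜) hne
        refine ⟨_, mem_insert_of_mem ?_, Or.inr hR1, le_sup_left, hR2.trans ?_⟩
        · rw [h𝒰, mem_image]
          exact ⟨fun i => ⟨(R i : L), hmon𝓜 (R i).2⟩, mem_univ _, rfl⟩
        · exact Nat.mul_le_mul le_rfl (card_le_card hmon)
    choose! Uf hUf1 hUf2 hUf4 hUf3 using hchoice
    -- the most popular value
    obtain ⟨U, hU𝒰, hUmax⟩ := Finset.exists_max_image (insert U₀ 𝒰)
      (fun U => (Y.filter fun y => Uf y = U).card) ⟨U₀, mem_insert_self _ _⟩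
    set Y₁ := Y.filter fun y => Uf y = U with hY₁
    have hY₁card : Y.card ≤ 2 * N * Y₁.card := by
      have h1 : Y.card ≤ (insert U₀ 𝒰).card * Y₁.card := by
        rw [Finset.card_eq_sum_card_fiberwise (f := Uf) (t := insert U₀ 𝒰)
          (fun y hy => hUf1 y hy)]
        calc _ ≤ ∑ _U' ∈ insert U₀ 𝒰, Y₁.card := Finset.sum_le_sum fun U' hU' => hUmax U' hU'
          _ = _ := by rw [Finset.sum_const, smul_eq_mul]
      refine h1.trans (Nat.mul_le_mul ?_ le_rfl)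
      have := card_insert_le U₀ 𝒰
      omega
    have hY₁ne : Y₁.Nonempty := by
      by_contra h
      rw [not_nonempty_iff_eq_empty] at h
      rw [h] at hY₁card
      simp at hY₁card
      exact hYne.ne_empty hY₁card
    have hU₀U : U₀ ≤ U := by
      obtain ⟨y, hy⟩ := hY₁ne
      obtain ⟨hyY, hyU⟩ := mem_filter.1 hy
      exact hyU ▸ hUf4 y hyY
    set X₁ := X₀.filter fun x => U ≤ x with hX₁
    have hX₁card : X.card ≤ 2 * N * X₁.card := by
      obtain ⟨y, hy⟩ := hY₁ne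
      obtain ⟨hyY, hyU⟩ := mem_filter.1 hy
      have h2 := hUf2 y hyY
      rw [hyU] at h2
      by_cases hU0 : U = U₀
      · have : X₁ = X₀ := by
          rw [hX₁, hU0, Finset.filter_true_of_mem]
          exact fun x hx => hXU₀ x (hX₀X hx)
        rw [this]
        refine hX₀card.trans (Nat.mul_le_mul ?_ le_rfl)
        omega
      · have hU𝒰' : U ∈ 𝒰 := (mem_insert.1 hU𝒰).resolve_left hU0
        rcases h2 with h2 | ⟨x, hx, hUx⟩
        · exact absurd h2 hU0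
        · rcases hX₀ U hU𝒰' with h | h
          · exact absurd hUx (h x hx)
          · exact h
    have hX₁X : X₁ ⊆ X := (filter_subset _ _).trans hX₀X
    have hUX₁ : ∀ x ∈ X₁, U ≤ x := fun x hx => (mem_filter.1 hx).2
    obtain ⟨X', hX', Y', hY', hXc, hYc, hval⟩ := ih U X₁ Y₁ (fun y => res (a y) U)
      (𝓜.image fun S => S ⊔ U) hUX₁ (lt_of_le_of_lt card_image_le h𝓜) (by
        intro y hy W hW hne
        obtain ⟨S, hS1, hS2⟩ := exists_of_res_ne hne
        refine mem_image.2 ⟨S, hsup y (mem_filter.1 hy).1 S ?_ hS2, hS1⟩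
        rintro rfl
        rw [sup_eq_right.2 hU₀U] at hS1
        exact hW hS1.symm) (by
        intro y _ W hne
        obtain ⟨S, hS1, _⟩ := exists_of_res_ne hne
        exact hS1 ▸ le_sup_right) (by
        rintro y hy z hUz ⟨x, hx, hz⟩
        rw [val_res (a y) hUz]
        exact hbool y (mem_filter.1 hy).1 _ (hU₀U.trans hUz) ⟨x, hX₁X hx, hz⟩) (by
        intro y hy
        obtain ⟨hyY, hyU⟩ := mem_filter.1 hy
        have h3 := hUf3 y hyY
        rw [hyU] at h3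
        have h4 : (monX U X₁ (res (a y) U)).card ≤ (alive (DX X₀) (a y) U).card := by
          refine card_le_card fun W hW => ?_
          obtain ⟨_, h1, ⟨x, hx, h2⟩, h3⟩ := mem_filter.1 hW
          exact mem_alive.2 ⟨h1, ⟨x, (mem_filter.1 hx).1, h2⟩, h3⟩
        have h5 := hm y hyY
        rw [pow_succ, pow_succ] at h5
        have h6 : 4 * ((monX U X₁ (res (a y) U)).card * 3 ^ j) ≤
            (monX U₀ X (a y)).card * (3 ^ j * 3) := by
          calc 4 * ((monX U X₁ (res (a y) U)).card * 3 ^ j)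
              = (4 * (monX U X₁ (res (a y) U)).card) * 3 ^ j := by ring
            _ ≤ (3 * (monX U₀ X (a y)).card) * 3 ^ j := Nat.mul_le_mul (by omega) le_rfl
            _ = _ := by ring
        omega)
    have he : 2 ^ ((4 * t ^ 3 + 1) * (j + 1)) = 2 * N * 2 ^ ((4 * t ^ 3 + 1) * j) := by
      rw [hN, hn, mul_add, mul_one, pow_add, pow_succ 2 (4 * t ^ 3)]
      have : t * (4 * t ^ 2) = 4 * t ^ 3 := by ring
      rw [this]; ring
    refine ⟨X', hX'.trans hX₁X, Y', hY'.trans (filter_subset _ _), ?_, ?_, ?_⟩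
    · rw [he]
      calc X.card ≤ 2 * N * X₁.card := hX₁card
        _ ≤ 2 * N * (2 ^ ((4 * t ^ 3 + 1) * j) * X'.card) := Nat.mul_le_mul le_rfl hXc
        _ = _ := by ring
    · rw [he]
      calc Y.card ≤ 2 * N * Y₁.card := hY₁card
        _ ≤ 2 * N * (2 ^ ((4 * t ^ 3 + 1) * j) * Y'.card) := Nat.mul_le_mul le_rfl hYc
        _ = _ := by ring
    · intro y hy
      obtain ⟨b, hb⟩ := hval y hy
      refine ⟨b, fun x hx => ?_⟩
      have h1 := hb x hx
      rw [val_res (a y) (hUX₁ x (hX' hx))] at h1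
      exact h1

end rect

variable {L : Type} [Lattice L] [BoundedOrder L] [Fintype L]

theorem core {Yt : Type} [Fintype Yt] {t : ℕ} (𝒳 : Finset L)
    (𝒴 : Finset Yt) (a : Yt → L → ℝ) (𝓜 : Finset L) (h𝓜 : 𝓜.card < 2 ^ t)
    (hsup : ∀ y ∈ 𝒴, ∀ S, S ≠ ⊥ → a y S ≠ 0 → S ∈ 𝓜)
    (hbool : ∀ y ∈ 𝒴, ∀ z, DX 𝒳 z → val (a y) z = 0 ∨ val (a y) z = 1)
    (G : L → Yt → Bool)
    (hG : ∀ x ∈ 𝒳, ∀ y ∈ 𝒴, (if G x y = true then (1 : ℝ) else 0) = val (a y) x) :
    CCOn (fun x y => x ∈ 𝒳 ∧ y ∈ 𝒴) G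
      (t * (2 * ((4 * t ^ 3 + 1) * (3 * t) + t + 3)) + 2) := by
  set q := (4 * t ^ 3 + 1) * (3 * t) with hq
  -- the value as a sum over `insert ⊥ 𝓜`
  have hval : ∀ y ∈ 𝒴, ∀ x, val (a y) x =
      ∑ S ∈ insert ⊥ 𝓜, (if S ≤ x then (1 : ℝ) else 0) * a y S := by
    intro y hy x
    unfold val
    rw [← Finset.sum_filter_ne_zero]
    symm
    rw [← Finset.sum_filter_ne_zero]
    have e : (filter (fun S => (if S ≤ x then (1 : ℝ) else 0) * a y S ≠ 0) (insert ⊥ 𝓜)) =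
        filter (fun S => a y S ≠ 0) (univ.filter fun w => w ≤ x) := by
      ext S
      simp only [mem_filter, mem_insert, mem_univ, true_and]
      constructor
      · rintro ⟨_, h2⟩
        by_cases hS : S ≤ x
        · simp only [hS, if_true, one_mul] at h2
          exact ⟨hS, h2⟩
        · simp [hS] at h2
      · rintro ⟨h1, h2⟩
        refine ⟨?_, by simp [h1, h2]⟩
        by_cases hS : S = ⊥
        · exact Or.inl hS
        · exact Or.inr (hsup y hy S hS h2)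
    rw [e]
    refine Finset.sum_congr rfl fun S hS => ?_
    rw [if_pos (mem_filter.1 (mem_filter.1 hS).1).2, one_mul]
  have hcard1 : (insert ⊥ 𝓜).card ≤ 2 ^ t := by
    have := card_insert_le (⊥ : L) 𝓜
    omega
  have hrk1 : rk G 𝒳 𝒴 ≤ 2 ^ t := by
    refine (rk_le_of_sum G 𝒳 𝒴 (insert ⊥ 𝓜) (fun x S => if S ≤ x then (1 : ℝ) else 0)
      (fun S y => if y ∈ 𝒴 then a y S else 0) ?_).trans hcard1
    intro x hx
    ext y
    rw [Finset.sum_apply]
    simp only [Pi.smul_apply, smul_eq_mul, vec]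
    by_cases hy : y ∈ 𝒴
    · simp only [hy, true_and, if_true]
      rw [hG x hx y hy, hval y hy x]
    · simp [hy]
  have hrk2 : rk (fun (y : Yt) (x : L) => G x y) 𝒴 𝒳 ≤ 2 ^ t := by
    refine (rk_le_of_sum (fun (y : Yt) (x : L) => G x y) 𝒴 𝒳 (insert ⊥ 𝓜)
      (fun y S => a y S)
      (fun S x => if x ∈ 𝒳 ∧ S ≤ x then (1 : ℝ) else 0) ?_).trans hcard1
    intro y hy
    ext x
    rw [Finset.sum_apply]
    simp only [Pi.smul_apply, smul_eq_mul, vec]
    by_cases hx : x ∈ 𝒳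
    · simp only [hx, true_and]
      rw [hG x hx y hy, hval y hy x]
      exact Finset.sum_congr rfl fun S _ => mul_comm _ _
    · simp [hx]
  obtain ⟨ρQ, hρQ, hρQc⟩ := reps G 𝒳 𝒴 hrk1
  obtain ⟨ρP, hρP, hρPc⟩ := reps (fun (y : Yt) (x : L) => G x y) 𝒴 𝒳 hrk2
  set A₀ := 𝒳.image ρP with hA₀
  set B₀ := 𝒴.image ρQ with hB₀
  have hA₀𝒳 : A₀ ⊆ 𝒳 := by
    intro z hz
    obtain ⟨x, hx, rfl⟩ := mem_image.1 hz
    exact (hρP x hx).1
  have hB₀𝒴 : B₀ ⊆ 𝒴 := by
    intro z hz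
    obtain ⟨y, hy, rfl⟩ := mem_image.1 hz
    exact (hρQ y hy).1
  have hgood : Good G A₀ B₀ q := by
    intro A hA B hB
    obtain ⟨A', hA', B', hB', hc1, hc2, hconst⟩ := rect (t := t) (3 * t) ⊥ A B a 𝓜
      (fun _ _ => bot_le) h𝓜
      (fun y hy => hsup y (hB₀𝒴 (hB hy)))
      (fun _ _ _ _ => bot_le)
      (by
        rintro y hy z _ ⟨x, hx, hz⟩
        exact hbool y (hB₀𝒴 (hB hy)) z ⟨x, hA₀𝒳 (hA hx), hz⟩)
      (by
        intro y hy
        have h1 : (monX ⊥ A (a y)).card ≤ 𝓜.card := by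
          refine card_le_card fun S hS => ?_
          obtain ⟨_, h1, _, h3⟩ := mem_filter.1 hS
          exact hsup y (hB₀𝒴 (hB hy)) S h1 h3
        have h2 : (monX ⊥ A (a y)).card < 2 ^ t := lt_of_le_of_lt h1 h𝓜
        have h3 : (2 : ℕ) ^ t * 3 ^ (3 * t) ≤ 4 ^ (3 * t) := by
          rw [pow_mul, pow_mul, ← mul_pow]
          exact Nat.pow_le_pow_left (by norm_num) t
        exact lt_of_lt_of_le (Nat.mul_lt_mul_of_pos_right h2 (by positivity)) h3)
    refine ⟨A', hA', B', hB', hc1, hc2, rk_le_one fun y hy => ?_⟩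
    obtain ⟨b, hb⟩ := hconst y hy
    refine ⟨decide (b = 1), fun x hx => ?_⟩
    have h1 := hG x (hA₀𝒳 (hA (hA' hx))) y (hB₀𝒴 (hB (hB' hy)))
    rw [hb x hx] at h1
    cases hGxy : G x y
    · simp [hGxy] at h1
      simp [← h1]
    · simp [hGxy] at h1
      simp [← h1]
  have hrk3 : rk G A₀ B₀ ≤ 2 ^ t :=
    ((rk_mono_left G hA₀𝒳 B₀).trans (rk_mono_right G 𝒳 hB₀𝒴)).trans hrk1
  have hw : 2 ^ q * (2 ^ t + 1) + 2 ^ q * (2 ^ t + 1) < 2 ^ (q + t + 3) := by
    have e : 2 ^ (q + t + 3) = 2 ^ q * (2 ^ t * 8) := by rw [pow_add, pow_add]; ring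
    rw [e, ← Nat.mul_add]
    refine Nat.mul_lt_mul_of_pos_left ?_ (by positivity)
    have : 1 ≤ 2 ^ t := Nat.one_le_two_pow
    omega
  have hph := phases hgood (size_bound q (2 ^ t) _ hρPc) (size_bound q (2 ^ t) _ hρQc) hw t A₀ B₀
    Subset.rfl Subset.rfl hrk3
  have hcm := AndRank.CCOn.comap ρP ρQ hph
  have hcm2 := hcm.mono (R' := fun x y => x ∈ 𝒳 ∧ y ∈ 𝒴) (fun x y hxy =>
    ⟨mem_image_of_mem _ hxy.1, mem_image_of_mem _ hxy.2⟩) le_rfl
  refine hcm2.congr fun x y hxy => ?_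
  have h1 := (hρP x hxy.1).2 (ρQ y) (hρQ y hxy.2).1
  have h2 := (hρQ y hxy.2).2 x hxy.1
  exact h1.trans h2

end Pool.Agent.Lib_helper10.Meet
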