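import Mathlib
import Pool.Agent.Lib_helper10.Meet.Rect

set_option autoImplicit false
set_option linter.unusedSectionVars false

/-! Meet functions on finite meet-semilattices: log-rank. -/

namespace Pool.Agent.Lib_helper10.Meet

open Finset Pool.Agent.Lib_helper10.LogRank Pool.Agent.Lib_helper10.AndRank

open Classical

/-! ### The lattice obtained by adding a top -/

section top

variable (L : Type) [SemilatticeInf L] [Fintype L]

/-- `L` with a top added -/
def Lt : Type := WithTop L

noncomputable instance : Fintype (Lt L) := inferInstanceAs (Fintype (WithTop L))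

instance : SemilatticeInf (Lt L) := inferInstanceAs (SemilatticeInf (WithTop L))

instance : OrderTop (Lt L) := inferInstanceAs (OrderTop (WithTop L))

noncomputable instance latticeLt : Lattice (Lt L) :=
  { (inferInstance : SemilatticeInf (Lt L)) with
    sup := fun a b => (univ.filter (fun c : Lt L => a ≤ c ∧ b ≤ c)).inf id
    le_sup_left := fun _ _ => Finset.le_inf fun _ hc => (mem_filter.1 hc).2.1
    le_sup_right := fun _ _ => Finset.le_inf fun _ hc => (mem_filter.1 hc).2.2
    sup_le := fun _ _ c h1 h2 =>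
      Finset.inf_le (f := id) (mem_filter.2 ⟨mem_univ c, h1, h2⟩) }

noncomputable instance boundedLt : BoundedOrder (Lt L) :=
  { (inferInstance : OrderTop (Lt L)) with
    bot := (univ : Finset (Lt L)).inf id
    bot_le := fun a => Finset.inf_le (f := id) (mem_univ a) }

variable {L}

/-- the embedding -/
def up (x : L) : Lt L := (WithTop.some x : WithTop L)

theorem up_le_up {x y : L} : up x ≤ up y ↔ x ≤ y := WithTop.coe_le_coe (α := L)

theorem up_inj {x y : L} (h : up x = up y) : x = y := WithTop.coe_injective h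

theorem up_cases (z : Lt L) : z = ⊤ ∨ ∃ x : L, z = up x := by
  rcases z with _ | x
  · exact Or.inl rfl
  · exact Or.inr ⟨x, rfl⟩

theorem up_ne_top (x : L) : up x ≠ (⊤ : Lt L) := WithTop.coe_ne_top (α := L)

theorem exists_of_le_up {z : Lt L} {x : L} (h : z ≤ up x) : ∃ y : L, z = up y ∧ y ≤ x := by
  rcases up_cases z with rfl | ⟨y, rfl⟩
  · exact absurd (top_le_iff.1 h) (up_ne_top x)
  · exact ⟨y, rfl, up_le_up.1 h⟩

end top

/-! ### Möbius inversion -/

section mobius

variable {L : Type} [SemilatticeInf L] [Fintype L]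

theorem down_card_lt {w v : L} (h : w < v) :
    (univ.filter (fun u : L => u ≤ w)).card < (univ.filter (fun u : L => u ≤ v)).card := by
  refine card_lt_card ?_
  rw [Finset.ssubset_iff_of_subset]
  · exact ⟨v, by simp, by simp [h.not_ge]⟩
  · intro u hu
    simp only [mem_filter, mem_univ, true_and] at hu ⊢
    exact hu.trans h.le

/-- Möbius inversion -/
noncomputable def alpha (g : L → ℝ) (v : L) : ℝ :=
  g v - ∑ w ∈ (univ.filter (fun w : L => w < v)).attach, alpha g w.1
termination_by (univ.filter (fun u : L => u ≤ v)).card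
decreasing_by exact down_card_lt (mem_filter.1 w.2).2

theorem alpha_eq (g : L → ℝ) (v : L) :
    alpha g v = g v - ∑ w ∈ univ.filter (fun w : L => w < v), alpha g w := by
  rw [alpha, Finset.sum_attach _ (fun w => alpha g w)]

theorem sum_alpha (g : L → ℝ) (v : L) :
    ∑ w ∈ univ.filter (fun w : L => w ≤ v), alpha g w = g v := by
  have h : univ.filter (fun w : L => w ≤ v) = insert v (univ.filter (fun w : L => w < v)) := by
    ext w
    simp only [mem_filter, mem_insert, mem_univ, true_and]
    rw [le_iff_eq_or_lt]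
  rw [h, Finset.sum_insert (by simp), alpha_eq g v]
  ring

/-- indicator vector of the upper set of `w` -/
noncomputable def zvec (w : L) : L → ℝ := fun x => if w ≤ x then 1 else 0

theorem zvec_linearIndependent : LinearIndependent ℝ (zvec (L := L)) := by
  rw [Fintype.linearIndependent_iff]
  intro c hc
  by_contra hcon
  push Not at hcon
  obtain ⟨i, hi⟩ := hcon
  obtain ⟨S, hS, hmin⟩ := Finset.exists_min_image ((univ : Finset L).filter fun S => c S ≠ 0)
    (fun S => (univ.filter (fun u : L => u ≤ S)).card) ⟨i, by simp [hi]⟩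
  have hcS := (mem_filter.1 hS).2
  have h1 := congrFun hc S
  rw [Finset.sum_apply] at h1
  simp only [Pi.smul_apply, smul_eq_mul, Pi.zero_apply, zvec] at h1
  rw [Finset.sum_eq_single_of_mem S (mem_univ _)] at h1
  · simp at h1
    exact hcS h1
  · intro T _ hne
    by_cases hcT : c T = 0
    · simp [hcT]
    · by_cases hTS : T ≤ S
      · exfalso
        have h2 := hmin T (by simp [hcT])
        have := down_card_lt (lt_of_le_of_ne hTS hne)
        omega
      · simp [hTS]

theorem card_le_realRank {Q : Type} [Fintype Q] (f : Q → L → Bool)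
    (𝓜 : Finset L) (h𝓜 : ∀ S ∈ 𝓜, ∃ q : Q, alpha (fun v => if f q v = true then 1 else 0) S ≠ 0) :
    𝓜.card ≤ realRank (fun (x : L) (p : Q × L) => f p.1 (x ⊓ p.2)) := by
  set g : Q → L → ℝ := fun q v => if f q v = true then 1 else 0 with hg
  set A : Matrix L (Q × L) ℝ := Matrix.of fun (x : L) (p : Q × L) =>
    if f p.1 (x ⊓ p.2) = true then (1 : ℝ) else 0 with hA
  have hrank : realRank (fun (x : L) (p : Q × L) => f p.1 (x ⊓ p.2)) = A.rank := rfl
  rw [hrank, Matrix.rank_eq_finrank_span_cols]
  -- columns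
  have hcol : ∀ (q : Q) (S : L), A.col (q, S) =
      ∑ T ∈ (univ : Finset L).filter (fun T : L => T ≤ S), alpha (g q) T • zvec T := by
    intro q S
    ext x
    rw [Finset.sum_apply]
    simp only [Pi.smul_apply, smul_eq_mul, zvec, mul_ite, mul_one, mul_zero]
    rw [← Finset.sum_filter, Finset.filter_filter]
    have h1 : A.col (q, S) x = g q (x ⊓ S) := rfl
    rw [h1, ← sum_alpha (g q) (x ⊓ S), Finset.sum_filter, Finset.sum_filter]
    refine Finset.sum_congr rfl fun T _ => ?_
    simp only [le_inf_iff, and_comm]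
  have hspan : ∀ (n : ℕ) (q : Q) (S : L), (univ.filter (fun u : L => u ≤ S)).card = n →
      alpha (g q) S • zvec S ∈ Submodule.span ℝ (Set.range A.col) := by
    intro n
    induction n using Nat.strong_induction_on with
    | _ n ih =>
      intro q S hS
      have h1 := hcol q S
      rw [← Finset.add_sum_erase ((univ : Finset L).filter (fun T : L => T ≤ S)) _
        (mem_filter.2 ⟨mem_univ S, le_rfl⟩)] at h1
      have h2 : alpha (g q) S • zvec S = A.col (q, S) -
          ∑ T ∈ ((univ : Finset L).filter (fun T : L => T ≤ S)).erase S,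
            alpha (g q) T • zvec T := by
        rw [h1]; abel
      rw [h2]
      refine Submodule.sub_mem _ (Submodule.subset_span ⟨_, rfl⟩) (Submodule.sum_mem _ ?_)
      intro T hT
      rw [mem_erase, mem_filter] at hT
      refine ih _ ?_ q T rfl
      rw [← hS]
      exact down_card_lt (lt_of_le_of_ne hT.2.2 hT.1)
  -- independent subfamily
  have hind : LinearIndependent ℝ (fun S : 𝓜 => zvec (S : L)) :=
    (zvec_linearIndependent (L := L)).comp (fun S : 𝓜 => (S : L)) Subtype.val_injective
  have hcard := finrank_span_eq_card hind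
  rw [Fintype.card_coe] at hcard
  rw [← hcard]
  refine Submodule.finrank_mono (Submodule.span_le.2 ?_)
  rintro _ ⟨S, rfl⟩
  obtain ⟨q, hq⟩ := h𝓜 S S.2
  have := hspan _ q (S : L) rfl
  have h2 := Submodule.smul_mem _ (alpha (g q) S)⁻¹ this
  rw [smul_smul, inv_mul_cancel₀ hq, one_smul] at h2
  exact h2


end mobius

section final

variable (L : Type) [SemilatticeInf L] [Fintype L]

theorem logRank_meetSemilattice (Q : Type) [Fintype Q] (f : Q → L → Bool)
    (hne : ∃ q v, f q v = true) :
    ∃ π : Protocol L (Q × L), (∀ x p, π.eval x p = f p.1 (x ⊓ p.2)) ∧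
      (π.cost : ℝ) ≤ 40 * (1 + Real.logb 2
        (realRank (fun (x : L) (p : Q × L) => f p.1 (x ⊓ p.2)))) ^ 5 := by
  set r := realRank (fun (x : L) (p : Q × L) => f p.1 (x ⊓ p.2)) with hr
  set g : Q → L → ℝ := fun q v => if f q v = true then 1 else 0 with hg
  have hg01 : ∀ q v, g q v = 0 ∨ g q v = 1 := by
    intro q v; simp only [hg]; split_ifs <;> simp
  set 𝓜 := (univ : Finset L).filter (fun S => ∃ q : Q, alpha (g q) S ≠ 0) with h𝓜
  have hcard : 𝓜.card ≤ r := card_le_realRank f 𝓜 (fun S hS => (mem_filter.1 hS).2)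
  have hr1 : 1 ≤ r := by
    refine le_trans ?_ hcard
    by_contra hcon
    have h0 : 𝓜 = ∅ := by
      rw [← Finset.card_eq_zero]; omega
    obtain ⟨q, v, hfv⟩ := hne
    have h1 := sum_alpha (g q) v
    have h2 : g q v = 1 := by simp [hg, hfv]
    rw [h2] at h1
    obtain ⟨S, hS, hS'⟩ := Finset.exists_ne_zero_of_sum_ne_zero (by rw [h1]; norm_num)
    have : S ∈ 𝓜 := mem_filter.2 ⟨mem_univ S, q, hS'⟩
    rw [h0] at this
    simp at this
  set t := Nat.log 2 r + 1 with ht
  have hrt : r < 2 ^ t := Nat.lt_pow_succ_log_self (by norm_num) r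
  -- coefficients of the columns
  set a : Q × L → Lt L → ℝ := fun p z =>
    if h : ∃ w : L, z = up w ∧ w ≤ p.2 then alpha (g p.1) h.choose else 0 with ha
  have ha1 : ∀ (p : Q × L) (w : L), w ≤ p.2 → a p (up w) = alpha (g p.1) w := by
    intro p w hw
    have h : ∃ w' : L, up w = up w' ∧ w' ≤ p.2 := ⟨w, rfl, hw⟩
    simp only [ha, dif_pos h]
    rw [← up_inj h.choose_spec.1]
  have ha2 : ∀ (p : Q × L) (z : Lt L), (¬ ∃ w : L, z = up w ∧ w ≤ p.2) → a p z = 0 := by
    intro p z h
    simp only [ha, dif_neg h]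
  have hval : ∀ (p : Q × L) (x : L), val (a p) (up x) = g p.1 (x ⊓ p.2) := by
    intro p x
    rw [← sum_alpha (g p.1) (x ⊓ p.2)]
    unfold val
    symm
    rw [← Finset.sum_filter_ne_zero (s := univ.filter fun w => w ≤ up x)]
    have e : filter (fun z => a p z ≠ 0) (univ.filter fun w => w ≤ up x) =
        ((univ.filter (fun w : L => w ≤ x ⊓ p.2)).filter
          (fun w => alpha (g p.1) w ≠ 0)).image up := by
      ext z
      simp only [mem_filter, mem_image, mem_univ, true_and]
      constructor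
      · rintro ⟨h1, h2⟩
        by_cases h : ∃ w : L, z = up w ∧ w ≤ p.2
        · obtain ⟨w, rfl, hw⟩ := h
          rw [ha1 p w hw] at h2
          exact ⟨w, ⟨le_inf (up_le_up.1 h1) hw, h2⟩, rfl⟩
        · exact absurd (ha2 p z h) h2
      · rintro ⟨w, ⟨h1, h2⟩, rfl⟩
        have h3 := le_inf_iff.1 h1
        exact ⟨up_le_up.2 h3.1, by rwa [ha1 p w h3.2]⟩
    rw [e, Finset.sum_image (fun _ _ _ _ h => up_inj h), ← Finset.sum_filter_ne_zero]
    refine Finset.sum_congr rfl fun w hw => ?_
    rw [mem_filter, mem_filter] at hw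
    exact (ha1 p w (le_inf_iff.1 hw.1.2).2).symm
  have hcore := core (t := t) ((univ : Finset L).image up) (univ : Finset (Q × L)) a
    (𝓜.image up) (lt_of_le_of_lt (card_image_le.trans hcard) hrt)
    (by
      intro p _ S _ hS
      by_cases h : ∃ w : L, S = up w ∧ w ≤ p.2
      · obtain ⟨w, rfl, hw⟩ := h
        rw [ha1 p w hw] at hS
        exact mem_image_of_mem _ (mem_filter.2 ⟨mem_univ _, p.1, hS⟩)
      · exact absurd (ha2 p S h) hS)
    (by
      rintro p _ z ⟨x, hx, hz⟩
      obtain ⟨x, _, rfl⟩ := mem_image.1 hx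
      obtain ⟨y, rfl, hy⟩ := exists_of_le_up hz
      rw [hval]
      exact hg01 p.1 _)
    (fun z p => if h : ∃ x : L, z = up x then f p.1 (h.choose ⊓ p.2) else false)
    (by
      intro z hz p _
      obtain ⟨x, _, rfl⟩ := mem_image.1 hz
      have h : ∃ x' : L, up x = up x' := ⟨x, rfl⟩
      rw [hval, dif_pos h, ← up_inj h.choose_spec])
  obtain ⟨π, hπ1, hπ2⟩ := CCOn.comap (up : L → Lt L) (id : Q × L → Q × L) hcore
  refine ⟨π, fun x p => ?_, ?_⟩
  · rw [hπ2 x p ⟨mem_image_of_mem _ (mem_univ _), mem_univ _⟩]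
    have h : ∃ x' : L, up x = up x' := ⟨x, rfl⟩
    simp only [dif_pos h, id]
    rw [← up_inj h.choose_spec]
  have ht1 : 1 ≤ t := by omega
  have hcost : π.cost ≤ 40 * t ^ 5 := by
    refine hπ1.trans ?_
    have e : t * (2 * ((4 * t ^ 3 + 1) * (3 * t) + t + 3)) + 2 =
        24 * t ^ 5 + 8 * t ^ 2 + 6 * t + 2 := by ring
    rw [e]
    have h1 : t ≤ t ^ 5 := by
      calc t = t ^ 1 := (pow_one t).symm
        _ ≤ t ^ 5 := Nat.pow_le_pow_right ht1 (by norm_num)
    have h2 : t ^ 2 ≤ t ^ 5 := Nat.pow_le_pow_right ht1 (by norm_num)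
    omega
  have hlog : (t : ℝ) ≤ 1 + Real.logb 2 r := by
    have : (Nat.log 2 r : ℝ) ≤ Real.logb 2 r := by exact_mod_cast Real.natLog_le_logb r 2
    rw [ht]; push_cast; linarith
  calc (π.cost : ℝ) ≤ ((40 * t ^ 5 : ℕ) : ℝ) := by exact_mod_cast hcost
    _ = 40 * (t : ℝ) ^ 5 := by push_cast; ring
    _ ≤ 40 * (1 + Real.logb 2 r) ^ 5 := by
        have : (t : ℝ) ^ 5 ≤ (1 + Real.logb 2 r) ^ 5 :=
          pow_le_pow_left₀ (by positivity) hlog 5
        linarith

end final

end Pool.Agent.Lib_helper10.Meet
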